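import Mathlib
import Pool.Agent.MP_665542_gt.H35.Glob

/-!
The torus is `ℝ² / (2πℤ)²`; smooth objects on it are smooth doubly `2π`-periodic objects on `ℝ²`.
Every smooth metric on the torus has arbitrarily `C⁰`-small perturbations, supported near any
given point, such that a small neighbourhood of that point has no `C⁴` isometric immersion
into `ℝ³`.
-/

namespace Pool.Agent.Results.MP_665542_gt.EveryTorus

open scoped RealInnerProductSpace ContDiff
open Real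

/-- doubly `2π`-periodic maps on the plane, that is, maps on the torus -/
def Per {α : Type} (f : ℝ × ℝ → α) : Prop :=
  ∀ x : ℝ × ℝ, f (x + (2 * π, 0)) = f x ∧ f (x + (0, 2 * π)) = f x

/-- the matrix at `x` of the pull-back of the Euclidean metric by `f` -/
noncomputable def pull (f : ℝ × ℝ → EuclideanSpace ℝ (Fin 3)) (x : ℝ × ℝ) :
    Matrix (Fin 2) (Fin 2) ℝ :=
  Matrix.of fun i j =>
    ⟪fderiv ℝ f x (![((1 : ℝ), (0 : ℝ)), (0, 1)] i), fderiv ℝ f x (![((1 : ℝ), (0 : ℝ)), (0, 1)] j)⟫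

/-- smooth Riemannian metrics on the torus -/
def IsMetric (g : ℝ × ℝ → Matrix (Fin 2) (Fin 2) ℝ) : Prop :=
  (∀ i j, ContDiff ℝ ∞ fun x => g x i j) ∧ Per g ∧ ∀ x, (g x).PosDef

/-- the norm of the symmetric tensor `h` with respect to the inner product `g` -/
noncomputable def tnorm (g h : Matrix (Fin 2) (Fin 2) ℝ) : ℝ :=
  √(Matrix.trace (g⁻¹ * h * g⁻¹ * h))

open Pool.Agent.MP_665542_gt.H35 Filter Topology

theorem extend {f : ℝ × ℝ → EuclideanSpace ℝ (Fin 3)} {p : ℝ × ℝ} {r : ℝ} (hr : 0 < r)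
    (hf : ContDiffOn ℝ 4 f (Metric.ball p r)) (i : Fin 3) :
    ∃ F : ℝ × ℝ → ℝ, ContDiff ℝ 4 F ∧
      ∀ x ∈ Metric.ball p (r / 2), ∀ v, D v F x = fderiv ℝ f x v i := by
  let b : ContDiffBump p := ⟨r / 2, 3 * r / 4, by positivity, by linarith⟩
  have hfi : ∀ x ∈ Metric.ball p r, ContDiffAt ℝ 4 f x := fun x hx =>
    hf.contDiffAt (Metric.isOpen_ball.mem_nhds hx)
  refine ⟨fun x => b x * f x i, contDiff_iff_contDiffAt.2 fun x => ?_, fun x hx v => ?_⟩
  · by_cases hx : x ∈ Metric.ball p r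
    · have hb : ContDiff ℝ 4 b := by exact_mod_cast b.contDiff (n := 4)
      exact hb.contDiffAt.mul
        ((EuclideanSpace.proj (𝕜 := ℝ) i).contDiff.contDiffAt.comp x (hfi x hx))
    · refine (contDiffAt_const (c := (0 : ℝ))).congr_of_eventuallyEq ?_
      have hx' : 3 * r / 4 < dist x p := by
        rw [Metric.mem_ball, not_lt] at hx
        linarith
      filter_upwards [(continuous_id.dist continuous_const).continuousAt.eventually_const_lt hx']
        with z hz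
      rw [b.zero_of_le_dist (x := z) hz.le, zero_mul]
  · have h1 : (fun x => b x * f x i) =ᶠ[𝓝 x] fun x => f x i := by
      filter_upwards [b.eventuallyEq_one_of_mem_ball hx] with z hz
      rw [hz]; simp
    have hd : DifferentiableAt ℝ f x :=
      (hfi x (Metric.ball_subset_ball (by linarith) hx)).differentiableAt (by norm_num)
    rw [D_congr h1]
    have h2 := ((EuclideanSpace.proj (𝕜 := ℝ) i).hasFDerivAt.comp x hd.hasFDerivAt).fderiv
    unfold D
    rw [show (fun x => f x i) = (EuclideanSpace.proj (𝕜 := ℝ) i) ∘ f from rfl, h2]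
    rfl

theorem rsq_bd (z : ℝ × ℝ) : |z.2 ^ 2| ≤ rsq z ∧ |z.1 * z.2| ≤ rsq z ∧ |z.1 ^ 2| ≤ rsq z := by
  unfold rsq
  refine ⟨?_, ?_, ?_⟩ <;> rw [abs_le] <;> constructor <;>
    nlinarith [mul_self_nonneg z.1, mul_self_nonneg z.2, sq_nonneg (z.1 + z.2),
      sq_nonneg (z.1 - z.2)]

theorem small_of (α β γ : ℝ) {θ : ℝ} (hθ : 0 < θ) :
    ∃ τ > 0, ∀ ξ : ℝ × ℝ, rsq ξ < 2 →
      ‖((τ * (ξ.1 / α - β * ξ.2 / (α * γ)), τ * (ξ.2 / γ)) : ℝ × ℝ)‖ < θ := by
  have hc : Continuous fun ξ : ℝ × ℝ => ((ξ.1 / α - β * ξ.2 / (α * γ), ξ.2 / γ) : ℝ × ℝ) := by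
    fun_prop
  obtain ⟨C, hC⟩ := (isCompact_Icc (a := ((-2, -2) : ℝ × ℝ))
    (b := (2, 2))).exists_bound_of_continuousOn hc.continuousOn
  have hC0 : 0 ≤ C := le_trans (norm_nonneg _) (hC (0, 0) (by simp [Prod.le_def]))
  refine ⟨θ / (C + 1), by positivity, fun ξ hξ => ?_⟩
  have hs : ξ.1 * ξ.1 + ξ.2 * ξ.2 < 2 := hξ
  have h1 := hC ξ ⟨⟨by nlinarith [mul_self_nonneg ξ.2], by nlinarith [mul_self_nonneg ξ.1]⟩,
    ⟨by nlinarith [mul_self_nonneg ξ.2], by nlinarith [mul_self_nonneg ξ.1]⟩⟩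
  have e : ((θ / (C + 1) * (ξ.1 / α - β * ξ.2 / (α * γ)), θ / (C + 1) * (ξ.2 / γ)) : ℝ × ℝ) =
      (θ / (C + 1)) • ((ξ.1 / α - β * ξ.2 / (α * γ), ξ.2 / γ) : ℝ × ℝ) := rfl
  rw [e, norm_smul, Real.norm_eq_abs, abs_of_pos (by positivity), div_mul_eq_mul_div,
    div_lt_iff₀ (by positivity)]
  nlinarith

theorem result (g0 : ℝ × ℝ → Matrix (Fin 2) (Fin 2) ℝ) (h0 : IsMetric g0) (p : ℝ × ℝ)
    (r ε : ℝ) (hr : 0 < r) (hε : 0 < ε) :
    ∃ g : ℝ × ℝ → Matrix (Fin 2) (Fin 2) ℝ, IsMetric g ∧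
      (∃ δ : ℝ, δ < ε ∧ ∀ x, tnorm (g0 x) (g x - g0 x) ≤ δ) ∧
      (∀ x, (∀ m n : ℤ, r ≤ dist x (p + (2 * π * m, 2 * π * n))) → g x = g0 x) ∧
      ¬ ∃ f : ℝ × ℝ → EuclideanSpace ℝ (Fin 3), ContDiffOn ℝ 4 f (Metric.ball p r) ∧
        ∀ x ∈ Metric.ball p r, pull f x = g x := by
  obtain ⟨sg, pg, dg⟩ := h0
  obtain ⟨-, ha, hd⟩ := posDef_facts (dg p)
  have hγ0 : 0 < g0 p 1 1 - g0 p 0 1 ^ 2 / g0 p 0 0 := by
    rw [sub_pos, div_lt_iff₀ ha]; linarith
  set α := √(g0 p 0 0) with hαd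
  set γ := √(g0 p 1 1 - g0 p 0 1 ^ 2 / g0 p 0 0) with hγd
  have hα : 0 < α := sqrt_pos.2 ha
  have hγ : 0 < γ := sqrt_pos.2 hγ0
  set β := g0 p 0 1 / α with hβd
  have q1 : α ^ 2 = g0 p 0 0 := sq_sqrt ha.le
  have q2 : α * β = g0 p 0 1 := by rw [hβd]; field_simp
  have q3 : β ^ 2 + γ ^ 2 = g0 p 1 1 := by
    rw [hβd, div_pow, q1, hγd, sq_sqrt hγ0.le]; ring
  clear_value α β γ
  obtain ⟨θ1, hθ1, P1⟩ := small_pert (fun i j => (sg i j).continuous) (dg p) (half_pos hε)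
  set V : (ℝ × ℝ) × ℝ × ℝ × ℝ → ℝ × ℝ × ℝ := fun z =>
    (α ^ 2 * (1 - z.2.1) - g0 (p + z.1) 0 0,
      α * (β * (1 - z.2.1) + γ * z.2.2.1) - g0 (p + z.1) 0 1,
      β ^ 2 * (1 - z.2.1) + 2 * β * γ * z.2.2.1 + γ ^ 2 * (1 - z.2.2.2) - g0 (p + z.1) 1 1) with hV
  have sV : ContDiff ℝ ∞ V := by
    have k : ∀ i j, ContDiff ℝ ∞ fun z : (ℝ × ℝ) × ℝ × ℝ × ℝ => g0 (p + z.1) i j :=
      fun i j => (sg i j).comp (by fun_prop)
    exact (ContDiff.sub (by fun_prop) (k 0 0)).prodMk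
      ((ContDiff.sub (by fun_prop) (k 0 1)).prodMk (ContDiff.sub (by fun_prop) (k 1 1)))
  have V0 : V 0 = 0 := by
    simp only [hV, Prod.fst_zero, Prod.snd_zero, add_zero, sub_zero, mul_zero, mul_one, q1, q2, q3,
      sub_self]
    rfl
  obtain ⟨θ2, hθ2, P2⟩ := Metric.continuousAt_iff.1 (sV.continuous.continuousAt (x := 0)) θ1 hθ1
  obtain ⟨A, A1, A2, E, E1, c0, s2, hP, sB, hs1, hs2, hB, hη⟩ := exists_prof (half_pos hθ2)
  set θ := min (min 1 (r / 2)) (min θ1 θ2) with hθd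
  have hθ : 0 < θ := lt_min (lt_min one_pos (half_pos hr)) (lt_min hθ1 hθ2)
  have t1 : θ ≤ 1 := (min_le_left _ _).trans (min_le_left _ _)
  have t2 : θ ≤ r / 2 := (min_le_left _ _).trans (min_le_right _ _)
  have t3 : θ ≤ θ1 := (min_le_right _ _).trans (min_le_left _ _)
  have t4 : θ ≤ θ2 := (min_le_right _ _).trans (min_le_right _ _)
  obtain ⟨τ, hτ, P3⟩ := small_of α β γ hθ
  set ξ : ℝ × ℝ → ℝ × ℝ := fun y => ((α * y.1 + β * y.2) / τ, γ * y.2 / τ) with hξ
  set w : ℝ × ℝ → ℝ × ℝ × ℝ := fun z =>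
    (Bc A A1 E (rsq z) * z.2 ^ 2, Bc A A1 E (rsq z) * (z.1 * z.2), Bc A A1 E (rsq z) * z.1 ^ 2) with hw
  set χ : ℝ × ℝ → ℝ := fun z => smoothTransition ((s2 - rsq z) / (s2 - 1)) with hχ
  set H : ℝ × ℝ → ℝ × ℝ × ℝ := fun y => χ (ξ y) • V (y, w (ξ y)) with hH
  have ssq : ContDiff ℝ ∞ rsq := cd_sq
  have sξ : ContDiff ℝ ∞ ξ := by rw [hξ]; fun_prop
  have sw : ContDiff ℝ ∞ w := by rw [hw]; fun_prop
  have sχ : ContDiff ℝ ∞ χ := smoothTransition.contDiff.comp (by fun_prop)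
  have sH : ContDiff ℝ ∞ H := (sχ.comp sξ).smul (sV.comp (contDiff_id.prodMk (sw.comp sξ)))
  have dich : ∀ y, H y = 0 ∨ (‖y‖ < θ ∧ ‖H y‖ < θ1) := by
    intro y
    by_cases h : s2 ≤ rsq (ξ y)
    · left
      have : χ (ξ y) = 0 := smoothTransition.zero_of_nonpos
        (div_nonpos_of_nonpos_of_nonneg (by linarith) (by linarith))
      simp only [hH, this, zero_smul]
    right
    push Not at h
    have h1 := P3 (ξ y) (by linarith)
    have e : ((τ * ((ξ y).1 / α - β * (ξ y).2 / (α * γ)), τ * ((ξ y).2 / γ)) : ℝ × ℝ) = y := by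
      simp only [hξ]
      ext
      · field_simp; ring
      · field_simp
    rw [e] at h1
    refine ⟨h1, ?_⟩
    have h2 := hη _ (sq_nonneg' _) h.le
    have h3 : ∀ u : ℝ, |u| ≤ rsq (ξ y) → ‖Bc A A1 E (rsq (ξ y)) * u‖ < θ2 := by
      intro u hu
      rw [abs_mul, abs_of_nonneg (sq_nonneg' _)] at h2
      rw [Real.norm_eq_abs, abs_mul]
      have := mul_le_mul_of_nonneg_left hu (abs_nonneg (Bc A A1 E (rsq (ξ y))))
      linarith
    have h4 : ‖w (ξ y)‖ < θ2 := by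
      simp only [hw, Prod.norm_def, max_lt_iff]
      exact ⟨h3 _ (rsq_bd _).1, h3 _ (rsq_bd _).2.1, h3 _ (rsq_bd _).2.2⟩
    have h5 := P2 (x := (y, w (ξ y))) (by
      rw [dist_zero_right, Prod.norm_def]
      exact max_lt (h1.trans_le t4) h4)
    rw [V0, dist_zero_right] at h5
    simp only [hH]
    rw [norm_smul, Real.norm_eq_abs, abs_of_nonneg (smoothTransition.nonneg _)]
    exact (mul_le_of_le_one_left (norm_nonneg _) (smoothTransition.le_one _)).trans_lt h5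
  have far : ∀ y : ℝ × ℝ, θ ≤ ‖y‖ → H y = 0 := fun y hy =>
    (dich y).resolve_right fun h => absurd h.1 (not_lt.2 hy)
  have far1 : ∀ y : ℝ × ℝ, 1 ≤ |y.1| ∨ 1 ≤ |y.2| → H y = 0 := by
    intro y hy
    apply far
    rw [Prod.norm_def, Real.norm_eq_abs, Real.norm_eq_abs]
    exact t1.trans (le_max_iff.2 hy)
  set Y : ℝ × ℝ → ℝ × ℝ := fun x => (red (x.1 - p.1), red (x.2 - p.2)) with hY
  have gY : ∀ x, g0 (p + Y x) = g0 x := by
    intro x
    rw [← per_int pg x (-round ((x.1 - p.1) / (2 * π))) (-round ((x.2 - p.2) / (2 * π)))]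
    congr 1
    simp only [hY, red]
    ext <;> simp <;> ring
  set T : ℝ × ℝ × ℝ → Matrix (Fin 2) (Fin 2) ℝ := fun u => !![u.1, u.2.1; u.2.1, u.2.2] with hT
  have T0 : T 0 = 0 := by
    ext i j; fin_cases i <;> fin_cases j <;> simp [hT]
  refine ⟨fun x => g0 x + T (H (Y x)), ⟨fun i j => ?_, fun x => ?_, fun x => ?_⟩,
    ⟨ε / 2, by linarith, fun x => ?_⟩, fun x hx => ?_, ?_⟩
  · refine (sg i j).add ?_
    have k1 := contDiff_per (H := fun y => (H y).1) sH.fst (fun y hy => by rw [far1 y hy]; rfl) p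
    have k2 := contDiff_per (H := fun y => (H y).2.1) sH.snd.fst
      (fun y hy => by rw [far1 y hy]; rfl) p
    have k3 := contDiff_per (H := fun y => (H y).2.2) sH.snd.snd
      (fun y hy => by rw [far1 y hy]; rfl) p
    fin_cases i <;> fin_cases j
    exacts [k1, k2, k2, k3]
  · have y1 : Y (x + (2 * π, 0)) = Y x := by
      simp only [hY, Prod.fst_add, Prod.snd_add, add_zero, add_sub_right_comm, red_add]
    have y2 : Y (x + (0, 2 * π)) = Y x := by
      simp only [hY, Prod.fst_add, Prod.snd_add, add_zero, add_sub_right_comm, red_add]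
    simp only [y1, y2, (pg x).1, (pg x).2, and_self]
  · rcases dich (Y x) with h | ⟨h1, h2⟩
    · simpa [h, T0] using dg x
    · obtain ⟨-, k1, k2⟩ := P1 _ _ (h1.trans_le t3) h2
      rw [gY] at k1 k2
      exact posDef_two (by simp [hT, (posDef_facts (dg x)).1]) (by simpa [hT] using k1)
        (by simpa [hT] using k2)
  · rw [add_sub_cancel_left]
    rcases dich (Y x) with h | ⟨h1, h2⟩
    · simp only [h, T0, tnorm, mul_zero, Matrix.trace_zero, sqrt_zero]
      positivity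
    · have k := (P1 _ _ (h1.trans_le t3) h2).1
      rw [gY] at k
      exact k.le
  · have h := hx (round ((x.1 - p.1) / (2 * π))) (round ((x.2 - p.2) / (2 * π)))
    have e : x - (p + (2 * π * round ((x.1 - p.1) / (2 * π)),
        2 * π * round ((x.2 - p.2) / (2 * π)))) = Y x := by
      simp only [hY, red]
      ext <;> simp <;> ring
    rw [dist_eq_norm, e] at h
    simp only [far _ (by linarith : θ ≤ ‖Y x‖), T0, add_zero]
  · rintro ⟨f, hf, hg⟩
    obtain ⟨f1, s1, d1⟩ := extend hr hf 0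
    obtain ⟨f2, s2', d2⟩ := extend hr hf 1
    obtain ⟨f3, s3, d3⟩ := extend hr hf 2
    refine no_imm_affine hP hB s1 s2' s3 (p := p) (β := β) hα hγ hτ fun z x hz hx => ?_
    have h1 := P3 z (by linarith)
    set y : ℝ × ℝ := (τ * (z.1 / α - β * z.2 / (α * γ)), τ * (z.2 / γ)) with hy
    have hxy : x = p + y := hx
    have hb : x ∈ Metric.ball p (r / 2) := by
      rw [Metric.mem_ball, dist_eq_norm, hxy, add_sub_cancel_left]
      linarith
    have hY1 : Y x = y := by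
      have a1 : |y.1| ≤ ‖y‖ := norm_fst_le y
      have a2 : |y.2| ≤ ‖y‖ := norm_snd_le y
      simp only [hY, hxy, Prod.fst_add, Prod.snd_add, add_sub_cancel_left]
      rw [red_self (by linarith), red_self (by linarith)]
    have hξ1 : ξ y = z := by
      simp only [hξ, hy]
      ext
      · field_simp; ring
      · field_simp
    have hχ1 : χ z = 1 :=
      smoothTransition.one_of_one_le (by rw [le_div_iff₀ (by linarith)]; linarith)
    have k := hg x (Metric.ball_subset_ball (by linarith) hb)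
    simp only [hY1, hH, hξ1, hχ1, one_smul, hV, hw, ← hxy] at k
    have k00 := congrFun (congrFun k 0) 0
    have k01 := congrFun (congrFun k 0) 1
    have k11 := congrFun (congrFun k 1) 1
    simp only [d1 x hb, d2 x hb, d3 x hb]
    simp [pull, hT, PiLp.inner_apply, Fin.sum_univ_three] at k00 k01 k11
    exact ⟨by linear_combination k00, by linear_combination k01, by linear_combination k11⟩

end Pool.Agent.Results.MP_665542_gt.EveryTorus
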