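import Mathlib
import Pool.Agent.MP_665542_gt.H28.Core

/-!
The torus is `ℝ² / (2πℤ)²`; smooth objects on it are smooth doubly `2π`-periodic objects on `ℝ²`.
For each torus of revolution there are smooth metrics arbitrarily close to the induced one that
have no isometric embedding (not even a `C³` isometric immersion) into `ℝ³`.
-/

namespace Pool.Agent.Results.MP_665542_gt.TorusRev

open scoped RealInnerProductSpace ContDiff
open Real

/-- doubly `2π`-periodic maps on the plane, that is, maps on the torus -/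
def Per {α : Type} (f : ℝ × ℝ → α) : Prop :=
  ∀ x : ℝ × ℝ, f (x + (2 * π, 0)) = f x ∧ f (x + (0, 2 * π)) = f x

/-- the matrix at `x` of the pull-back of the Euclidean metric by `f` -/
noncomputable def pull (f : ℝ × ℝ → EuclideanSpace ℝ (Fin 3)) (x : ℝ × ℝ) :
    Matrix (Fin 2) (Fin 2) ℝ :=
  Matrix.of fun i j =>
    ⟪fderiv ℝ f x (![((1 : ℝ), (0 : ℝ)), (0, 1)] i), fderiv ℝ f x (![((1 : ℝ), (0 : ℝ)), (0, 1)] j)⟫

/-- smooth embeddings of the torus: smooth periodic immersions, injective modulo the lattice -/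
def IsEmb (f : ℝ × ℝ → EuclideanSpace ℝ (Fin 3)) : Prop :=
  ContDiff ℝ ∞ f ∧ Per f ∧ (∀ x, Function.Injective (fderiv ℝ f x)) ∧
    ∀ x y, f x = f y → ∃ m n : ℤ, y = x + (2 * π * m, 2 * π * n)

/-- smooth Riemannian metrics on the torus -/
def IsMetric (g : ℝ × ℝ → Matrix (Fin 2) (Fin 2) ℝ) : Prop :=
  (∀ i j, ContDiff ℝ ∞ fun x => g x i j) ∧ Per g ∧ ∀ x, (g x).PosDef

/-- the norm of the symmetric tensor `h` with respect to the inner product `g` -/
noncomputable def tnorm (g h : Matrix (Fin 2) (Fin 2) ℝ) : ℝ :=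
  √(Matrix.trace (g⁻¹ * h * g⁻¹ * h))

/-- the torus of revolution with radii `R` and `r` -/
noncomputable def rev (R r : ℝ) (x : ℝ × ℝ) : EuclideanSpace ℝ (Fin 3) :=
  WithLp.toLp 2 ![(R + r * cos x.1) * cos x.2, (R + r * cos x.1) * sin x.2, r * sin x.1]

open Pool.Agent.MP_665542_gt.H28

theorem contDiff_rev (R r : ℝ) : ContDiff ℝ ∞ (rev R r) := by
  unfold rev
  rw [contDiff_euclidean]
  intro i
  fin_cases i <;> simp <;> fun_prop

theorem fderiv_rev (R r : ℝ) (x w : ℝ × ℝ) :
    fderiv ℝ (rev R r) x w = WithLp.toLp 2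
      ![-(r * sin x.1 * cos x.2) * w.1 - (R + r * cos x.1) * sin x.2 * w.2,
        -(r * sin x.1 * sin x.2) * w.1 + (R + r * cos x.1) * cos x.2 * w.2,
        r * cos x.1 * w.1] := by
  have hd : Differentiable ℝ (rev R r) := (contDiff_rev R r).differentiable (by simp)
  have h := hasDerivAt_line hd x w 0
  simp only [zero_smul, add_zero, D] at h
  have hu : HasDerivAt (fun s : ℝ => (x + s • w).1) w.1 0 := by
    simpa using ((hasDerivAt_id (0 : ℝ)).mul_const w.1).const_add x.1
  have hv : HasDerivAt (fun s : ℝ => (x + s • w).2) w.2 0 := by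
    simpa using ((hasDerivAt_id (0 : ℝ)).mul_const w.2).const_add x.2
  ext i
  have hi := (EuclideanSpace.proj (𝕜 := ℝ) i).hasFDerivAt.comp_hasDerivAt (0 : ℝ) h
  fin_cases i
  · refine hi.unique ?_
    have := ((hu.cos.const_mul r).const_add R).fun_mul hv.cos
    refine HasDerivAt.congr_deriv (by exact this) ?_
    simp; ring
  · refine hi.unique ?_
    have := ((hu.cos.const_mul r).const_add R).fun_mul hv.sin
    refine HasDerivAt.congr_deriv (by exact this) ?_
    simp; ring
  · refine hi.unique ?_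
    have := hu.sin.const_mul r
    refine HasDerivAt.congr_deriv (by exact this) ?_
    simp; ring

theorem pull_rev (R r : ℝ) (x : ℝ × ℝ) :
    pull (rev R r) x = !![r ^ 2, 0; 0, (R + r * cos x.1) ^ 2] := by
  ext i j
  fin_cases i <;> fin_cases j <;> simp [pull, fderiv_rev, inner3]
  · linear_combination (r ^ 2 * sin x.1 ^ 2) * sin_sq_add_cos_sq x.2 + r ^ 2 * sin_sq_add_cos_sq x.1
  · ring
  · ring
  · linear_combination (R + r * cos x.1) ^ 2 * sin_sq_add_cos_sq x.2

theorem angle_eq {u v : ℝ} (h1 : cos u = cos v) (h2 : sin u = sin v) :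
    ∃ m : ℤ, v = u + 2 * π * m := by
  have := Real.Angle.cos_sin_inj h1.symm h2.symm
  rw [Real.Angle.angle_eq_iff_two_pi_dvd_sub] at this
  obtain ⟨k, hk⟩ := this
  exact ⟨k, by linarith⟩

theorem isEmb_rev {R r : ℝ} (hr : 0 < r) (hrR : r < R) : IsEmb (rev R r) := by
  have hρ : ∀ u, 0 < R + r * cos u := fun u => by nlinarith [neg_one_le_cos u]
  refine ⟨contDiff_rev R r, ?_, ?_, ?_⟩
  · intro x
    constructor <;> simp [rev]
  · intro x
    rw [injective_iff_map_eq_zero]
    intro w hw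
    rw [fderiv_rev] at hw
    have h0 := congrArg (fun z : EuclideanSpace ℝ (Fin 3) => z 0) hw
    have h1 := congrArg (fun z : EuclideanSpace ℝ (Fin 3) => z 1) hw
    have h2 := congrArg (fun z : EuclideanSpace ℝ (Fin 3) => z 2) hw
    simp only [Matrix.cons_val_zero, Matrix.cons_val_one, Matrix.cons_val, PiLp.zero_apply]
      at h0 h1 h2
    have e2 : (R + r * cos x.1) * w.2 = 0 := by
      linear_combination (-sin x.2) * h0 + cos x.2 * h1 -
        (R + r * cos x.1) * w.2 * sin_sq_add_cos_sq x.2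
    have e1 : r * w.1 = 0 := by
      linear_combination (-(sin x.1 * cos x.2)) * h0 - (sin x.1 * sin x.2) * h1 + cos x.1 * h2 -
        r * w.1 * sin x.1 ^ 2 * sin_sq_add_cos_sq x.2 - r * w.1 * sin_sq_add_cos_sq x.1
    exact Prod.ext ((mul_eq_zero.1 e1).resolve_left hr.ne')
      ((mul_eq_zero.1 e2).resolve_left (hρ _).ne')
  · intro x y hxy
    have h0 := congrArg (fun z : EuclideanSpace ℝ (Fin 3) => z 0) hxy
    have h1 := congrArg (fun z : EuclideanSpace ℝ (Fin 3) => z 1) hxy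
    have h2 := congrArg (fun z : EuclideanSpace ℝ (Fin 3) => z 2) hxy
    simp only [rev, Matrix.cons_val_zero, Matrix.cons_val_one, Matrix.cons_val] at h0 h1 h2
    have hsq : (R + r * cos x.1) ^ 2 = (R + r * cos y.1) ^ 2 := by
      linear_combination ((R + r * cos x.1) * cos x.2 + (R + r * cos y.1) * cos y.2) * h0 +
        ((R + r * cos x.1) * sin x.2 + (R + r * cos y.1) * sin y.2) * h1 -
        (R + r * cos x.1) ^ 2 * sin_sq_add_cos_sq x.2 +
        (R + r * cos y.1) ^ 2 * sin_sq_add_cos_sq y.2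
    have he : R + r * cos x.1 = R + r * cos y.1 :=
      (pow_left_inj₀ (hρ _).le (hρ _).le two_ne_zero).1 hsq
    have c1 : cos x.1 = cos y.1 := mul_left_cancel₀ hr.ne' (by linarith)
    have s1 : sin x.1 = sin y.1 := mul_left_cancel₀ hr.ne' h2
    rw [← he] at h0 h1
    have c2 : cos x.2 = cos y.2 := mul_left_cancel₀ (hρ _).ne' h0
    have s2 : sin x.2 = sin y.2 := mul_left_cancel₀ (hρ _).ne' h1
    obtain ⟨m, hm⟩ := angle_eq c1 s1
    obtain ⟨n, hn⟩ := angle_eq c2 s2
    exact ⟨m, n, Prod.ext hm hn⟩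

theorem tnorm_diag {a b c : ℝ} (ha : a ≠ 0) (hb : 0 < b) :
    tnorm !![a, 0; 0, b] (!![a, 0; 0, c] - !![a, 0; 0, b]) = |c - b| / b := by
  have hinv : (!![a, 0; 0, b] : Matrix (Fin 2) (Fin 2) ℝ)⁻¹ = !![a⁻¹, 0; 0, b⁻¹] := by
    apply Matrix.inv_eq_right_inv
    ext i j
    fin_cases i <;> fin_cases j <;> simp [Matrix.mul_apply, Fin.sum_univ_two, ha, hb.ne']
  unfold tnorm
  rw [hinv]
  have : Matrix.trace (!![a⁻¹, 0; 0, b⁻¹] * (!![a, 0; 0, c] - !![a, 0; 0, b]) * !![a⁻¹, 0; 0, b⁻¹] *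
      (!![a, 0; 0, c] - !![a, 0; 0, b]) : Matrix (Fin 2) (Fin 2) ℝ) = ((c - b) / b) ^ 2 := by
    simp [Matrix.trace_fin_two]
    field_simp
  rw [this, sqrt_sq_eq_abs, abs_div, abs_of_pos hb]

theorem result (R r : ℝ) (hr : 0 < r) (hrR : r < R) :
    IsEmb (rev R r) ∧ ∀ ε : ℝ, 0 < ε →
      ∃ g : ℝ × ℝ → Matrix (Fin 2) (Fin 2) ℝ, IsMetric g ∧
        (∃ δ : ℝ, δ < ε ∧ ∀ x, tnorm (pull (rev R r) x) (g x - pull (rev R r) x) ≤ δ) ∧
        ¬ ∃ f : ℝ × ℝ → EuclideanSpace ℝ (Fin 3), ContDiff ℝ 3 f ∧ Per f ∧ ∀ x, pull f x = g x := by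
  refine ⟨isEmb_rev hr hrR, fun ε hε => ?_⟩
  set C : ℝ := 2 * r * (R + r) / (R - r) ^ 2 with hC
  have hRr : 0 < R - r := by linarith
  have hCpos : 0 < C := by rw [hC]; have : 0 < R + r := by linarith
                           positivity
  set η : ℝ := min (1 / 2) (ε / (2 * C)) with hη
  have hη0 : 0 < η := lt_min (by norm_num) (by positivity)
  have hη1 : η ≤ 1 / 2 := min_le_left _ _
  have hη2 : η * C ≤ ε / 2 := by
    have : η ≤ ε / (2 * C) := min_le_right _ _
    calc η * C ≤ ε / (2 * C) * C := by gcongr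
      _ = ε / 2 := by field_simp
  set l : ℝ := 1 - η with hl
  have hl0 : 0 < l := by linarith
  have hl1 : l < 1 := by linarith
  have hρ : ∀ u, 0 < R + l * r * cos u := by
    intro u
    have h3 : 0 < l * r := mul_pos hl0 hr
    have h4 : l * r < r := by nlinarith
    nlinarith [neg_one_le_cos u]
  refine ⟨fun x => !![r ^ 2, 0; 0, (R + l * r * cos x.1) ^ 2], ⟨?_, ?_, ?_⟩, ⟨ε / 2, by linarith, ?_⟩,
    ?_⟩
  · intro i j
    fin_cases i <;> fin_cases j <;> simp <;> fun_prop
  · intro x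
    constructor <;> simp
  · intro x
    have : (!![r ^ 2, 0; 0, (R + l * r * cos x.1) ^ 2] : Matrix (Fin 2) (Fin 2) ℝ) =
        Matrix.diagonal ![r ^ 2, (R + l * r * cos x.1) ^ 2] := by
      ext i j
      fin_cases i <;> fin_cases j <;> simp
    simp only
    rw [this, Matrix.posDef_diagonal_iff]
    intro i
    fin_cases i
    · simpa using pow_pos hr 2
    · simpa using pow_pos (hρ x.1) 2
  · intro x
    have hρ0 : R - r ≤ R + r * cos x.1 := by nlinarith [neg_one_le_cos x.1]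
    have hρ1 : R + r * cos x.1 ≤ R + r := by nlinarith [cos_le_one x.1]
    have hρ2 : R + l * r * cos x.1 ≤ R + r := by
      have h3 : 0 < l * r := mul_pos hl0 hr
      have h4 : l * r < r := by nlinarith
      nlinarith [cos_le_one x.1]
    have hb : 0 < R + r * cos x.1 := by linarith
    rw [pull_rev]
    simp only
    rw [tnorm_diag (pow_pos hr 2).ne' (pow_pos hb 2)]
    refine le_trans ?_ hη2
    rw [div_le_iff₀ (pow_pos hb 2)]
    have e : (R + l * r * cos x.1) ^ 2 - (R + r * cos x.1) ^ 2 =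
        -(η * r * cos x.1) * ((R + l * r * cos x.1) + (R + r * cos x.1)) := by
      rw [hl]; ring
    have hs : 0 < (R + l * r * cos x.1) + (R + r * cos x.1) := by linarith [hρ x.1]
    rw [e, abs_mul, abs_neg, abs_mul, abs_of_pos (mul_pos hη0 hr), abs_of_pos hs]
    have hc := abs_cos_le_one x.1
    calc η * r * |cos x.1| * ((R + l * r * cos x.1) + (R + r * cos x.1))
        ≤ η * r * 1 * (2 * (R + r)) := by gcongr; linarith
      _ = η * C * (R - r) ^ 2 := by rw [hC]; field_simp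
      _ ≤ η * C * (R + r * cos x.1) ^ 2 := by gcongr
  · rintro ⟨f, hf, hp, hg⟩
    refine core hr hrR hl0 hl1 hf (fun x => (hp x).1) (fun x => (hp x).2) ?_ ?_ ?_
    · intro x
      simpa [pull, D] using congrFun (congrFun (hg x) 0) 0
    · intro x
      simpa [pull, D] using congrFun (congrFun (hg x) 0) 1
    · intro x
      simpa [pull, D] using congrFun (congrFun (hg x) 1) 1

end Pool.Agent.Results.MP_665542_gt.TorusRev
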